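import Pool.Agent.QSB.StmtsE

/-!
# Squad QSB, row RYH (helper96): the condition `RR` for `SU (p, p + d)`, `Sp (p, p + d)`
-/

set_option autoImplicit false

namespace Pool.Agent.QSB.H96

open Matrix Finset Pool.Agent.QSX Pool.Agent.QSN Pool.Agent.QSB

section lin

/-! ## The vectors of the roots -/

variable {p : ℕ}

/-- unit vector -/
noncomputable def ee (i : Fin p) : Fin p → ℝ := Pi.single i 1

theorem ee_apply (i l : Fin p) : ee i l = if l = i then (1 : ℝ) else 0 := by
  unfold ee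
  rw [Pi.single_apply]

theorem ee_self (i : Fin p) : ee i i = 1 := by rw [ee_apply, if_pos rfl]

theorem ee_nonneg (i l : Fin p) : 0 ≤ ee i l := by
  rw [ee_apply]; split_ifs <;> norm_num

theorem ee_sum (i : Fin p) : ∑ l, ee i l = 1 := by
  simp [ee_apply]

/-- the sum of the entries -/
noncomputable def sm (v : Fin p → ℝ) : ℝ := ∑ l, v l

theorem sm_ee (i : Fin p) : sm (ee i) = 1 := ee_sum i

theorem sm_add (v w : Fin p → ℝ) : sm (v + w) = sm v + sm w := by
  unfold sm
  rw [← Finset.sum_add_distrib]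
  rfl

theorem sm_sub (v w : Fin p → ℝ) : sm (v - w) = sm v - sm w := by
  unfold sm
  rw [← Finset.sum_sub_distrib]
  rfl

theorem sm_smul (c : ℝ) (v : Fin p → ℝ) : sm (c • v) = c * sm v := by
  unfold sm
  rw [Finset.mul_sum]
  rfl

/-- the vectors of the roots -/
def Rs (v : Fin p → ℝ) : Prop :=
  (∃ m n : Fin p, m < n ∧ v = ee m - ee n) ∨ (∃ m : Fin p, v = ee m) ∨
    ∃ m n : Fin p, v = ee m + ee n

theorem Rs_sm {v : Fin p → ℝ} (h : Rs v) : sm v = 0 ∨ sm v = 1 ∨ sm v = 2 := by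
  rcases h with ⟨m, n, _, rfl⟩ | ⟨m, rfl⟩ | ⟨m, n, rfl⟩
  · left; rw [sm_sub, sm_ee, sm_ee]; ring
  · right; left; exact sm_ee m
  · right; right; rw [sm_add, sm_ee, sm_ee]; ring

theorem Rs_ne {v : Fin p → ℝ} (h : Rs v) : v ≠ 0 := by
  intro h0
  rcases h with ⟨m, n, hmn, rfl⟩ | ⟨m, rfl⟩ | ⟨m, n, rfl⟩
  · have := congrFun h0 m
    rw [Pi.sub_apply, ee_self, ee_apply, if_neg hmn.ne] at this
    norm_num at this
  · have := congrFun h0 m
    rw [ee_self] at this
    norm_num at this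
  · have := congrFun h0 m
    rw [Pi.add_apply, ee_self] at this
    have h2 := ee_nonneg n m
    simp only [Pi.zero_apply] at this
    linarith

theorem Rs_zero {v : Fin p → ℝ} (h : Rs v) (h0 : sm v = 0) :
    ∃ m n : Fin p, m < n ∧ v = ee m - ee n := by
  rcases h with h | ⟨m, rfl⟩ | ⟨m, n, rfl⟩
  · exact h
  · rw [sm_ee] at h0; norm_num at h0
  · rw [sm_add, sm_ee, sm_ee] at h0; norm_num at h0

theorem Rs_one {v : Fin p → ℝ} (h : Rs v) (h0 : sm v = 1) : ∃ m : Fin p, v = ee m := by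
  rcases h with ⟨m, n, _, rfl⟩ | h | ⟨m, n, rfl⟩
  · rw [sm_sub, sm_ee, sm_ee] at h0; norm_num at h0
  · exact h
  · rw [sm_add, sm_ee, sm_ee] at h0; norm_num at h0

theorem Rs_two {v : Fin p → ℝ} (h : Rs v) (h0 : sm v = 2) : ∃ m n : Fin p, v = ee m + ee n := by
  rcases h with ⟨m, n, _, rfl⟩ | ⟨m, rfl⟩ | h
  · rw [sm_sub, sm_ee, sm_ee] at h0; norm_num at h0
  · rw [sm_ee] at h0; norm_num at h0
  · exact h

/-- an entry `-1` -/
theorem sub_fix {m n i a b : Fin p} (hmn : m < n) (c : ℝ)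
    (h : ee m - ee n + c • ee i = ee a + ee b) : n = i := by
  have h1 := congrFun h n
  rw [Pi.add_apply, Pi.sub_apply, Pi.smul_apply, Pi.add_apply, ee_self, ee_apply m n,
    if_neg hmn.ne', smul_eq_mul] at h1
  by_contra hne
  rw [ee_apply i n, if_neg hne] at h1
  have h2 := ee_nonneg a n
  have h3 := ee_nonneg b n
  linarith

theorem sub_fix1 {m n i a : Fin p} (hmn : m < n) (c : ℝ)
    (h : ee m - ee n + c • ee i = ee a) : n = i := by
  have h1 := congrFun h n
  rw [Pi.add_apply, Pi.sub_apply, Pi.smul_apply, ee_self, ee_apply m n,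
    if_neg hmn.ne', smul_eq_mul] at h1
  by_contra hne
  rw [ee_apply i n, if_neg hne] at h1
  have h2 := ee_nonneg a n
  linarith

/-- the ray condition for vectors -/
theorem Rs_ray {v w : Fin p → ℝ} (hv : Rs v) (hw : Rs w) (c : ℝ) (h : w = c • v) :
    c = 1 ∨ c = 2 ∨ c = 1 / 2 := by
  have hc : c ≠ 0 := by
    intro h0
    rw [h0, zero_smul] at h
    exact Rs_ne hw h
  have hs : sm w = c * sm v := by rw [h, sm_smul]
  rcases Rs_sm hv with h1 | h1 | h1
  · rw [h1, mul_zero] at hs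
    obtain ⟨m, n, hmn, rfl⟩ := Rs_zero hv h1
    obtain ⟨a, b, hab, rfl⟩ := Rs_zero hw hs
    left
    have hm := congrFun h m
    have hn := congrFun h n
    have h2 := ee_apply m n
    rw [if_neg hmn.ne'] at h2
    have h3 := ee_apply n m
    rw [if_neg hmn.ne] at h3
    rw [Pi.sub_apply, Pi.smul_apply, Pi.sub_apply, ee_self, h3, smul_eq_mul, ee_apply a m,
      ee_apply b m] at hm
    rw [Pi.sub_apply, Pi.smul_apply, Pi.sub_apply, ee_self, h2, smul_eq_mul, ee_apply a n,
      ee_apply b n] at hn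
    by_cases e1 : m = a
    · by_cases e2 : m = b
      · exact absurd (e1.symm.trans e2) hab.ne
      · rw [if_pos e1, if_neg e2] at hm
        linarith
    · rw [if_neg e1] at hm
      by_cases e2 : m = b
      · rw [if_pos e2] at hm
        by_cases e3 : n = a
        · subst e3
          subst e2
          exact absurd (lt_trans hmn hab) (lt_irrefl _)
        · rw [if_neg e3] at hn
          split_ifs at hn <;> linarith
      · rw [if_neg e2] at hm
        exact absurd (by linarith) hc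
  · rw [h1, mul_one] at hs
    rcases Rs_sm hw with h2 | h2 | h2
    · exact absurd (hs.symm.trans h2) hc
    · left; exact hs.symm.trans h2
    · right; left; exact hs.symm.trans h2
  · rw [h1] at hs
    rcases Rs_sm hw with h2 | h2 | h2
    · exact absurd (by linarith) hc
    · right; right; linarith
    · left; linarith

/-- a vector and its double -/
theorem Rs_dbl {v : Fin p → ℝ} (hv : Rs v) (hw : Rs ((2 : ℝ) • v)) : ∃ i : Fin p, v = ee i := by
  have hs : sm ((2 : ℝ) • v) = 2 * sm v := sm_smul 2 v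
  rcases Rs_sm hv with h1 | h1 | h1
  · exfalso
    rw [h1, mul_zero] at hs
    obtain ⟨m, n, hmn, rfl⟩ := Rs_zero hv h1
    obtain ⟨a, b, hab, h2⟩ := Rs_zero hw hs
    have hm := congrFun h2 m
    have h3 := ee_apply n m
    rw [if_neg hmn.ne] at h3
    rw [Pi.smul_apply, Pi.sub_apply, Pi.sub_apply, ee_self, h3, smul_eq_mul, ee_apply a m,
      ee_apply b m] at hm
    split_ifs at hm <;> linarith
  · exact Rs_one hv h1
  · exfalso
    rw [h1] at hs
    rcases Rs_sm hw with h2 | h2 | h2 <;> linarith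

end lin

section pos

/-! ## The places of the blocks -/

variable {p d k : ℕ}

/-- the outer indices of the first half -/
def io (p d : ℕ) (m : Fin p) : Fin (2 * p + d) := ⟨m, by have := m.2; omega⟩

theorem io_val (m : Fin p) : ((io p d m : Fin (2 * p + d)) : ℕ) = m := rfl

theorem io_out (m : Fin p) : ¬ Md p d (io p d m) := by
  intro h
  have := h.1
  rw [io_val] at this
  have := m.2
  omega

theorem sg_io_val (m : Fin p) :
    ((sg p d (io p d m) : Fin (2 * p + d)) : ℕ) = 2 * p + d - (m + 1) := by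
  rw [sg_out (io_out m), Fin.val_rev, io_val]

theorem idx (a : Fin (2 * p + d)) : (∃ m, a = io p d m) ∨ Md p d a ∨
    ∃ m, a = sg p d (io p d m) := by
  by_cases h1 : (a : ℕ) < p
  · left
    exact ⟨⟨a, h1⟩, rfl⟩
  · by_cases h2 : Md p d a
    · exact Or.inr (Or.inl h2)
    · right; right
      have h3 : p + d ≤ (a : ℕ) := by
        by_contra h4
        exact h2 ⟨not_lt.1 h1, not_le.1 h4⟩
      have h5 := a.2
      refine ⟨⟨2 * p + d - (a + 1), by omega⟩, ?_⟩
      apply Fin.ext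
      rw [sg_io_val]
      show (a : ℕ) = 2 * p + d - (2 * p + d - (a + 1) + 1)
      omega

/-- the places of the nonzero blocks -/
theorem places {𝔻 : Subalgebra ℝ (Matrix (Fin k) (Fin k) ℝ)}
    {x : Matrix (Fin (2 * p + d)) (Fin (2 * p + d)) (Matrix (Fin k) (Fin k) ℝ)}
    (hx : x ∈ nH p d 𝔻) {a b : Fin (2 * p + d)} (h : x a b ≠ 0) :
    (∃ m n : Fin p, m < n ∧ a = io p d m ∧ b = io p d n) ∨
    (∃ m : Fin p, a = io p d m ∧ Md p d b) ∨
    (∃ m n : Fin p, a = io p d m ∧ b = sg p d (io p d n)) ∨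
    (∃ m : Fin p, Md p d a ∧ b = sg p d (io p d m)) ∨
    (∃ m n : Fin p, n < m ∧ a = sg p d (io p d m) ∧ b = sg p d (io p d n)) := by
  have hlt : a < b := by
    by_contra hc
    exact h (hx.1.2 a b (not_lt.1 hc))
  rw [Fin.lt_def] at hlt
  rcases idx a with ⟨m, rfl⟩ | ha | ⟨m, rfl⟩
  · rcases idx b with ⟨n, rfl⟩ | hb | ⟨n, rfl⟩
    · left
      exact ⟨m, n, hlt, rfl, rfl⟩
    · right; left
      exact ⟨m, rfl, hb⟩
    · right; right; left
      exact ⟨m, n, rfl, rfl⟩
  · rcases idx b with ⟨n, rfl⟩ | hb | ⟨n, rfl⟩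
    · exfalso
      have h1 := ha.1
      have h2 := n.2
      rw [io_val] at hlt
      omega
    · exact absurd (hx.2.2 a b ha hb) h
    · right; right; right; left
      exact ⟨n, ha, rfl⟩
  · rcases idx b with ⟨n, rfl⟩ | hb | ⟨n, rfl⟩
    · exfalso
      have h1 := m.2
      have h2 := n.2
      rw [io_val, sg_io_val] at hlt
      omega
    · exfalso
      have h1 := m.2
      have h2 := hb.2
      rw [sg_io_val] at hlt
      omega
    · right; right; right; right
      refine ⟨m, n, ?_, rfl, rfl⟩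
      rw [sg_io_val, sg_io_val] at hlt
      rw [Fin.lt_def]
      have h1 := m.2
      have h2 := n.2
      omega

/-- the functional of a vector -/
noncomputable def FF (p d : ℕ) {k : ℕ} (hk : 0 < k)
    (𝔻 : Subalgebra ℝ (Matrix (Fin k) (Fin k) ℝ)) (v : Fin p → ℝ) : (datH p d 𝔻).b →ₗ[ℝ] ℝ :=
  ∑ l, v l • cH p d hk 𝔻 (io p d l)

variable (hk : 0 < k) (𝔻 : Subalgebra ℝ (Matrix (Fin k) (Fin k) ℝ))

theorem FF_ee (i : Fin p) : FF p d hk 𝔻 (ee i) = cH p d hk 𝔻 (io p d i) := by
  unfold FF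
  rw [Finset.sum_eq_single i]
  · rw [ee_self, one_smul]
  · intro l _ hl
    rw [ee_apply, if_neg hl, zero_smul]
  · intro h
    exact absurd (Finset.mem_univ i) h

theorem FF_add (v w : Fin p → ℝ) : FF p d hk 𝔻 (v + w) = FF p d hk 𝔻 v + FF p d hk 𝔻 w := by
  unfold FF
  rw [← Finset.sum_add_distrib]
  refine Finset.sum_congr rfl fun l _ => ?_
  rw [Pi.add_apply, add_smul]

theorem FF_sub (v w : Fin p → ℝ) : FF p d hk 𝔻 (v - w) = FF p d hk 𝔻 v - FF p d hk 𝔻 w := by
  unfold FF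
  rw [← Finset.sum_sub_distrib]
  refine Finset.sum_congr rfl fun l _ => ?_
  refine LinearMap.ext fun a => ?_
  rw [Pi.sub_apply, LinearMap.sub_apply, LinearMap.smul_apply, LinearMap.smul_apply,
    LinearMap.smul_apply, smul_eq_mul, smul_eq_mul, smul_eq_mul]
  ring

theorem FF_smul (c : ℝ) (v : Fin p → ℝ) : FF p d hk 𝔻 (c • v) = c • FF p d hk 𝔻 v := by
  unfold FF
  rw [Finset.smul_sum]
  refine Finset.sum_congr rfl fun l _ => ?_
  rw [Pi.smul_apply, smul_eq_mul, mul_smul]

theorem FF_inj (h4 : ∀ c : Fin p → ℝ, ∃ a : (datH p d 𝔻).b, ∀ i : Fin (2 * p + d),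
    ∀ h : (i : ℕ) < p, cH p d hk 𝔻 i a = c ⟨i, h⟩) {v w : Fin p → ℝ}
    (h : FF p d hk 𝔻 v = FF p d hk 𝔻 w) : v = w := by
  have key : ∀ (v : Fin p → ℝ) (l : Fin p) (a : (datH p d 𝔻).b),
      (∀ i : Fin (2 * p + d), ∀ h : (i : ℕ) < p, cH p d hk 𝔻 i a = ee l ⟨i, h⟩) →
      FF p d hk 𝔻 v a = v l := by
    intro v l a ha
    unfold FF
    rw [LinearMap.sum_apply, Finset.sum_eq_single l]
    · rw [LinearMap.smul_apply, ha (io p d l) l.2]
      show v l • ee l l = v l
      rw [ee_self, smul_eq_mul, mul_one]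
    · intro m _ hm
      rw [LinearMap.smul_apply, ha (io p d m) m.2]
      show v m • ee l m = 0
      rw [ee_apply, if_neg hm, smul_zero]
    · intro h
      exact absurd (Finset.mem_univ l) h
  funext l
  obtain ⟨a, ha⟩ := h4 (ee l)
  rw [← key v l a ha, ← key w l a ha, h]

theorem cH_md (h3 : ∀ i, cH p d hk 𝔻 (sg p d i) = - cH p d hk 𝔻 i) {a : Fin (2 * p + d)}
    (ha : Md p d a) : cH p d hk 𝔻 a = 0 := by
  have h := h3 a
  rw [sg_mid ha] at h
  refine LinearMap.ext fun c => ?_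
  have h2 := LinearMap.congr_fun h c
  rw [LinearMap.neg_apply] at h2
  rw [LinearMap.zero_apply]
  linarith

/-- the vector of a place -/
theorem wt_place (h3 : ∀ i, cH p d hk 𝔻 (sg p d i) = - cH p d hk 𝔻 i)
    {x : Matrix (Fin (2 * p + d)) (Fin (2 * p + d)) (Matrix (Fin k) (Fin k) ℝ)}
    (hx : x ∈ nH p d 𝔻) {a b : Fin (2 * p + d)} (h : x a b ≠ 0) :
    (∃ m n : Fin p, m < n ∧ a = io p d m ∧ b = io p d n ∧
      cH p d hk 𝔻 a - cH p d hk 𝔻 b = FF p d hk 𝔻 (ee m - ee n)) ∨
    (∃ m : Fin p, cH p d hk 𝔻 a - cH p d hk 𝔻 b = FF p d hk 𝔻 (ee m)) ∨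
    (∃ m n : Fin p, a = io p d m ∧ b = sg p d (io p d n) ∧
      cH p d hk 𝔻 a - cH p d hk 𝔻 b = FF p d hk 𝔻 (ee m + ee n)) ∨
    (∃ m n : Fin p, n < m ∧ a = sg p d (io p d m) ∧ b = sg p d (io p d n) ∧
      cH p d hk 𝔻 a - cH p d hk 𝔻 b = FF p d hk 𝔻 (ee n - ee m)) := by
  rcases places hx h with ⟨m, n, hmn, rfl, rfl⟩ | ⟨m, rfl, hb⟩ | ⟨m, n, rfl, rfl⟩ | ⟨m, ha, rfl⟩ |
    ⟨m, n, hmn, rfl, rfl⟩
  · left
    refine ⟨m, n, hmn, rfl, rfl, ?_⟩
    rw [FF_sub, FF_ee, FF_ee]
  · right; left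
    refine ⟨m, ?_⟩
    rw [cH_md hk 𝔻 h3 hb, sub_zero, FF_ee]
  · right; right; left
    refine ⟨m, n, rfl, rfl, ?_⟩
    rw [h3, FF_add, FF_ee, FF_ee, sub_neg_eq_add]
  · right; left
    refine ⟨m, ?_⟩
    rw [cH_md hk 𝔻 h3 ha, h3, FF_ee, zero_sub, neg_neg]
  · right; right; right
    refine ⟨m, n, hmn, rfl, rfl, ?_⟩
    rw [h3, h3, FF_sub, FF_ee, FF_ee]
    abel

end pos

theorem ex_block {p d k : ℕ} {x : Matrix (Fin (2 * p + d)) (Fin (2 * p + d))
    (Matrix (Fin k) (Fin k) ℝ)} (h : blk k (2 * p + d) x ≠ 0) : ∃ a b, x a b ≠ 0 := by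
  by_contra hc
  push Not at hc
  apply h
  have h0 : x = 0 := by
    ext a b
    rw [hc a b]
    rfl
  rw [h0, map_zero]

theorem ryh (ehm : EhmStmt) : RyhStmt := by
  intro p d k 𝔻 hk hT hdiv
  obtain ⟨h1, h2, h3, h4⟩ := ehm p d k hk 𝔻 hT
  have root : ∀ ρ : (datH p d 𝔻).b →ₗ[ℝ] ℝ, IsRt (datH p d 𝔻) ρ →
      ∃ v, Rs v ∧ ρ = FF p d hk 𝔻 v := by
    rintro ρ ⟨z, hz, hz0⟩
    obtain ⟨x, hx, rfl⟩ := hz.1
    obtain ⟨a, b, hab⟩ := ex_block hz0
    have hρ := h2 ρ x hx hz a b hab
    rcases wt_place hk 𝔻 h3 hx hab with ⟨m, n, hmn, _, _, he⟩ | ⟨m, he⟩ | ⟨m, n, _, _, he⟩ |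
      ⟨m, n, hmn, _, _, he⟩
    · exact ⟨_, Or.inl ⟨m, n, hmn, rfl⟩, hρ.trans he⟩
    · exact ⟨_, Or.inr (Or.inl ⟨m, rfl⟩), hρ.trans he⟩
    · exact ⟨_, Or.inr (Or.inr ⟨m, n, rfl⟩), hρ.trans he⟩
    · exact ⟨_, Or.inl ⟨n, m, hmn, rfl⟩, hρ.trans he⟩
  have dbl : ∀ ρ : (datH p d 𝔻).b →ₗ[ℝ] ℝ, IsRt (datH p d 𝔻) ρ →
      IsRt (datH p d 𝔻) ((2 : ℝ) • ρ) → ∃ i : Fin p, ρ = FF p d hk 𝔻 (ee i) := by
    intro ρ hρ hρ2
    obtain ⟨v, hv, rfl⟩ := root ρ hρ
    obtain ⟨w, hw, hvw⟩ := root _ hρ2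
    rw [← FF_smul] at hvw
    have h5 := FF_inj hk 𝔻 h4 hvw
    rw [← h5] at hw
    obtain ⟨i, hi⟩ := Rs_dbl hv hw
    exact ⟨i, by rw [hi]⟩
  refine ⟨?_, ?_, ?_⟩
  · intro ρ c hρ hc
    obtain ⟨v, hv, rfl⟩ := root ρ hρ
    obtain ⟨w, hw, hvw⟩ := root _ hc
    rw [← FF_smul] at hvw
    exact Rs_ray hv hw c (FF_inj hk 𝔻 h4 hvw).symm
  · intro ρ γ w z hρ hw hz hsum
    obtain ⟨i, rfl⟩ := dbl ρ hρ ⟨w, hw⟩
    obtain ⟨u, hu, rfl⟩ := root γ ⟨z, hz⟩
    obtain ⟨u', hu', huu⟩ := root _ hsum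
    rw [← FF_smul, ← FF_add] at huu
    have h5 := FF_inj hk 𝔻 h4 huu
    have hs : sm u' = 2 + sm u := by
      rw [← h5, sm_add, sm_smul, sm_ee]; ring
    have hu0 : sm u = 0 := by
      rcases Rs_sm hu with h | h | h
      · exact h
      · exfalso; rcases Rs_sm hu' with h' | h' | h' <;> linarith
      · exfalso; rcases Rs_sm hu' with h' | h' | h' <;> linarith
    obtain ⟨j, n, hjn, rfl⟩ := Rs_zero hu hu0
    obtain ⟨a, b, rfl⟩ := Rs_two hu' (by rw [hs, hu0, add_zero])
    have hni : n = i := by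
      refine sub_fix hjn 2 (a := a) (b := b) ?_
      rw [← h5, add_comm]
    subst hni
    obtain ⟨x, hx, rfl⟩ := hw.1.1
    obtain ⟨y, hy, rfl⟩ := hz.1.1
    -- the places of the blocks of `x`
    have hxp : ∀ a b, x a b ≠ 0 → a = io p d n ∧ b = sg p d (io p d n) := by
      intro a b hab
      have he := h2 _ x hx hw.1 a b hab
      have hs2 : sm ((2 : ℝ) • ee n) = 2 := by rw [sm_smul, sm_ee, mul_one]
      rcases wt_place hk 𝔻 h3 hx hab with ⟨m, m', _, _, _, he2⟩ | ⟨m, he2⟩ |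
        ⟨m, m', ha, hb, he2⟩ | ⟨m, m', _, _, _, he2⟩
      · exfalso
        have h6 := FF_inj hk 𝔻 h4 ((FF_smul hk 𝔻 2 (ee n)).trans (he.trans he2))
        have h7 := congrArg sm h6
        rw [hs2, sm_sub, sm_ee, sm_ee] at h7
        norm_num at h7
      · exfalso
        have h6 := FF_inj hk 𝔻 h4 ((FF_smul hk 𝔻 2 (ee n)).trans (he.trans he2))
        have h7 := congrArg sm h6
        rw [hs2, sm_ee] at h7
        norm_num at h7
      · have h6 := FF_inj hk 𝔻 h4 ((FF_smul hk 𝔻 2 (ee n)).trans (he.trans he2))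
        have h7 := congrFun h6 n
        rw [Pi.smul_apply, ee_self, Pi.add_apply, ee_apply m n, ee_apply m' n, smul_eq_mul] at h7
        by_cases e1 : n = m
        · by_cases e2 : n = m'
          · rw [ha, hb, ← e1, ← e2]
            exact ⟨rfl, rfl⟩
          · exfalso
            rw [if_pos e1, if_neg e2] at h7
            norm_num at h7
        · exfalso
          rw [if_neg e1] at h7
          split_ifs at h7 <;> norm_num at h7
      · exfalso
        have h6 := FF_inj hk 𝔻 h4 ((FF_smul hk 𝔻 2 (ee n)).trans (he.trans he2))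
        have h7 := congrArg sm h6
        rw [hs2, sm_sub, sm_ee, sm_ee] at h7
        norm_num at h7
    have hyp : y (io p d j) (io p d n) ≠ 0 := by
      obtain ⟨a, b, hab⟩ := ex_block hz.2
      have he := h2 _ y hy hz.1 a b hab
      have hs2 : sm (ee j - ee n) = 0 := by rw [sm_sub, sm_ee, sm_ee]; ring
      rcases wt_place hk 𝔻 h3 hy hab with ⟨m, m', hm, ha, hb, he2⟩ | ⟨m, he2⟩ |
        ⟨m, m', ha, hb, he2⟩ | ⟨m, m', hm, ha, hb, he2⟩
      · have h6 := FF_inj hk 𝔻 h4 (he.trans he2)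
        have h7 := congrFun h6 j
        have h8 := congrFun h6 n
        rw [Pi.sub_apply, Pi.sub_apply, ee_self, ee_apply n j, if_neg hjn.ne, ee_apply m j,
          ee_apply m' j] at h7
        rw [Pi.sub_apply, Pi.sub_apply, ee_self, ee_apply j n, if_neg hjn.ne', ee_apply m n,
          ee_apply m' n] at h8
        have e1 : j = m := by
          by_contra hne
          rw [if_neg hne] at h7
          split_ifs at h7 <;> norm_num at h7
        have e2 : n = m' := by
          by_contra hne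
          rw [if_neg hne] at h8
          split_ifs at h8 <;> norm_num at h8
        rw [ha, hb, ← e1, ← e2] at hab
        exact hab
      · exfalso
        have h7 := congrArg sm (FF_inj hk 𝔻 h4 (he.trans he2))
        rw [hs2, sm_ee] at h7
        norm_num at h7
      · exfalso
        have h7 := congrArg sm (FF_inj hk 𝔻 h4 (he.trans he2))
        rw [hs2, sm_add, sm_ee, sm_ee] at h7
        norm_num at h7
      · have h6 := FF_inj hk 𝔻 h4 (he.trans he2)
        have h7 := congrFun h6 j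
        have h8 := congrFun h6 n
        rw [Pi.sub_apply, Pi.sub_apply, ee_self, ee_apply n j, if_neg hjn.ne, ee_apply m' j,
          ee_apply m j] at h7
        rw [Pi.sub_apply, Pi.sub_apply, ee_self, ee_apply j n, if_neg hjn.ne', ee_apply m' n,
          ee_apply m n] at h8
        have e1 : j = m' := by
          by_contra hne
          rw [if_neg hne] at h7
          split_ifs at h7 <;> norm_num at h7
        have e2 : n = m := by
          by_contra hne
          rw [if_neg hne] at h8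
          split_ifs at h8 <;> norm_num at h8
        rw [ha, hb, ← e1, ← e2, hy.2.1] at hab
        intro h0
        apply hab
        rw [h0, Matrix.transpose_zero, neg_zero]
    have hxn : x (io p d n) (sg p d (io p d n)) ≠ 0 := by
      obtain ⟨a, b, hab⟩ := ex_block hw.2
      obtain ⟨ha, hb⟩ := hxp a b hab
      rw [ha, hb] at hab
      exact hab
    intro h0
    have h9 : blk k (2 * p + d) (x * y - y * x) = 0 := by
      rw [map_sub, map_mul, map_mul]
      exact h0
    have h10 : x * y - y * x = 0 := by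
      rw [← map_zero (blk k (2 * p + d))] at h9
      exact (blk k (2 * p + d)).injective h9
    have h11 := congrFun (congrFun h10 (io p d j)) (sg p d (io p d n))
    rw [Matrix.sub_apply, Matrix.mul_apply, Matrix.mul_apply, Matrix.zero_apply] at h11
    have hne : io p d j ≠ io p d n := by
      intro h
      have := congrArg Fin.val h
      rw [io_val, io_val] at this
      exact hjn.ne (Fin.ext this)
    rw [Finset.sum_eq_zero (fun l _ => by
      by_cases hl : x (io p d j) l = 0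
      · rw [hl, zero_mul]
      · exact absurd (hxp _ _ hl).1 hne), zero_sub, neg_eq_zero,
      Finset.sum_eq_single (io p d n) (fun l _ hl => by
        by_cases hl2 : x l (sg p d (io p d n)) = 0
        · rw [hl2, mul_zero]
        · exact absurd (hxp _ _ hl2).1 hl) (fun h => absurd (Finset.mem_univ _) h)] at h11
    obtain ⟨c, _, hc⟩ := hdiv _ (hy.1.1 (io p d j) (io p d n)) hyp
    have hc' : c * y (io p d j) (io p d n) = 1 := mul_eq_one_comm.1 hc
    apply hxn
    calc x (io p d n) (sg p d (io p d n))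
        = (c * y (io p d j) (io p d n)) * x (io p d n) (sg p d (io p d n)) := by
          rw [hc', one_mul]
      _ = c * (y (io p d j) (io p d n) * x (io p d n) (sg p d (io p d n))) := mul_assoc _ _ _
      _ = 0 := by rw [h11, mul_zero]
  · intro ρ γ γ' hρ hρ2 hγ hγ' _ _ hs1 hs2 hs3
    obtain ⟨i, rfl⟩ := dbl ρ hρ hρ2
    -- the possible vectors of `γ`
    have opt : ∀ γ : (datH p d 𝔻).b →ₗ[ℝ] ℝ, IsRt (datH p d 𝔻) γ →
        IsRt (datH p d 𝔻) (FF p d hk 𝔻 (ee i) + γ) →
        IsRt (datH p d 𝔻) ((2 : ℝ) • FF p d hk 𝔻 (ee i) + γ) ∨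
          ∃ j, γ = FF p d hk 𝔻 (ee j) := by
      intro γ hγ hs
      obtain ⟨u, hu, rfl⟩ := root γ hγ
      obtain ⟨u', hu', huu⟩ := root _ hs
      rw [← FF_add] at huu
      have h5 := FF_inj hk 𝔻 h4 huu
      have hsm : sm u' = 1 + sm u := by rw [← h5, sm_add, sm_ee]
      rcases Rs_sm hu with h | h | h
      · left
        obtain ⟨j, n, hjn, rfl⟩ := Rs_zero hu h
        obtain ⟨a, rfl⟩ := Rs_one hu' (by rw [hsm, h, add_zero])
        have hni : n = i := by
          refine sub_fix1 hjn 1 (a := a) ?_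
          rw [← h5, one_smul, add_comm]
        subst hni
        have hlt : io p d j < sg p d (io p d n) := by
          rw [Fin.lt_def, io_val, sg_io_val]
          have := j.2
          have := n.2
          omega
        obtain ⟨h6, h7⟩ := h1 (io p d j) (sg p d (io p d n)) hlt (fun h => io_out j h.1) 1
          𝔻.one_mem
        have h8 : cH p d hk 𝔻 (io p d j) - cH p d hk 𝔻 (sg p d (io p d n)) =
            (2 : ℝ) • FF p d hk 𝔻 (ee n) + FF p d hk 𝔻 (ee j - ee n) := by
          rw [h3, FF_sub, FF_ee, FF_ee, two_smul]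
          abel
        rw [h8] at h7
        refine ⟨_, h7, ?_⟩
        intro h9
        have h9' : blk k (2 * p + d) (eH p d (io p d j) (sg p d (io p d n)) 1) = 0 := h9
        rw [← map_zero (blk k (2 * p + d))] at h9'
        have h10 := (blk k (2 * p + d)).injective h9'
        have h11 := congrFun (congrFun h10 (io p d j)) (sg p d (io p d n))
        unfold eH at h11
        have hne : io p d n ≠ io p d j := by
          intro h
          have := congrArg Fin.val h
          rw [io_val, io_val] at this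
          exact hjn.ne' (Fin.ext this)
        rw [Matrix.sub_apply, Matrix.single_apply_same, sg_sg,
          Matrix.single_apply_of_row_ne hne, sub_zero, Matrix.zero_apply] at h11
        have h12 := congrFun (congrFun h11 ⟨0, hk⟩) ⟨0, hk⟩
        rw [Matrix.one_apply_eq, Matrix.zero_apply] at h12
        exact one_ne_zero h12
      · right
        obtain ⟨j, rfl⟩ := Rs_one hu h
        exact ⟨j, rfl⟩
      · exfalso
        rcases Rs_sm hu' with h' | h' | h' <;> linarith
    rcases opt γ hγ hs1 with h | ⟨j, rfl⟩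
    · exact Or.inl h
    · rcases opt γ' hγ' hs2 with h | ⟨j', rfl⟩
      · exact Or.inr h
      · exfalso
        obtain ⟨u, hu, huu⟩ := root _ hs3
        rw [← FF_add, ← FF_add] at huu
        have h5 := congrArg sm (FF_inj hk 𝔻 h4 huu)
        rw [sm_add, sm_add, sm_ee, sm_ee, sm_ee] at h5
        rcases Rs_sm hu with h' | h' | h' <;> linarith

end Pool.Agent.QSB.H96
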