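import Pool.Agent.QSB.StmtsS
import Mathlib.LinearAlgebra.BilinearForm.Orthogonal

/-!
# Squad QSB, row GNS (helper96): generated root spaces
-/

set_option autoImplicit false

namespace Pool.Agent.QSB.H96

open Matrix Finset Pool.Agent.QSX Pool.Agent.QSB

section form

variable {m : ℕ}

/-- the scalar product `trace (x * yᵀ)` -/
noncomputable def trB (m : ℕ) : LinearMap.BilinForm ℝ (Matrix (Fin m) (Fin m) ℝ) :=
  LinearMap.mk₂ ℝ (fun x y => trace (x * yᵀ))
    (fun a b c => by rw [add_mul, trace_add])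
    (fun r a b => by rw [smul_mul, trace_smul, smul_eq_mul])
    (fun a b c => by rw [transpose_add, mul_add, trace_add])
    (fun r a b => by rw [transpose_smul, Matrix.mul_smul, trace_smul, smul_eq_mul])

theorem trB_apply (x y : Matrix (Fin m) (Fin m) ℝ) : trB m x y = trace (x * yᵀ) := rfl

theorem trB_sum (x y : Matrix (Fin m) (Fin m) ℝ) : trB m x y = ∑ i, ∑ j, x i j * y i j := by
  rw [trB_apply, trace]
  refine Finset.sum_congr rfl fun i _ => ?_
  rw [diag_apply, mul_apply]
  rfl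

theorem trB_comm (x y : Matrix (Fin m) (Fin m) ℝ) : trB m x y = trB m y x := by
  rw [trB_sum, trB_sum]
  exact Finset.sum_congr rfl fun i _ => Finset.sum_congr rfl fun j _ => mul_comm _ _

theorem trB_self (x : Matrix (Fin m) (Fin m) ℝ) (h : trB m x x = 0) : x = 0 := by
  rw [trB_sum] at h
  have h1 : ∀ i ∈ (Finset.univ : Finset (Fin m)), 0 ≤ ∑ j, x i j * x i j :=
    fun i _ => Finset.sum_nonneg fun j _ => mul_self_nonneg _
  ext i j
  have h2 := (Finset.sum_eq_zero_iff_of_nonneg h1).1 h i (Finset.mem_univ i)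
  have h3 := (Finset.sum_eq_zero_iff_of_nonneg fun j _ => mul_self_nonneg (x i j)).1 h2 j
    (Finset.mem_univ j)
  exact mul_self_eq_zero.1 h3

/-- orthogonal projection -/
theorem ex_orth (U : Submodule ℝ (Matrix (Fin m) (Fin m) ℝ)) (x : Matrix (Fin m) (Fin m) ℝ) :
    ∃ u ∈ U, ∀ v ∈ U, trB m v (x - u) = 0 := by
  have hr : (trB m).IsRefl := fun a b h => by rw [trB_comm]; exact h
  have hn : ((trB m).restrict U).Nondegenerate := by
    constructor
    · intro a ha
      apply Subtype.ext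
      exact trB_self _ (ha a)
    · intro a ha
      apply Subtype.ext
      exact trB_self _ (ha a)
  have hc := LinearMap.BilinForm.isCompl_orthogonal_of_restrict_nondegenerate hr hn
  have hx : x ∈ U ⊔ (trB m).orthogonal U := by
    rw [hc.sup_eq_top]
    exact Submodule.mem_top
  obtain ⟨u, hu, w, hw, hs⟩ := Submodule.mem_sup.1 hx
  refine ⟨u, hu, fun v hv => ?_⟩
  have h1 : x - u = w := by rw [← hs]; abel
  rw [h1]
  exact LinearMap.BilinForm.mem_orthogonal_iff.1 hw v hv

theorem trB_key (x y z : Matrix (Fin m) (Fin m) ℝ) :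
    trB m y (xᵀ * z - z * xᵀ) = trB m (x * y - y * x) z := by
  rw [trB_apply, trB_apply, transpose_sub, transpose_mul, transpose_mul, transpose_transpose,
    mul_sub, trace_sub, sub_mul, trace_sub, ← mul_assoc, trace_mul_comm (y * zᵀ) x, ← mul_assoc,
    ← mul_assoc]

end form

/-- an element of positive product -/
theorem ex_pos {X : Dat} (σ : X.b →ₗ[ℝ] ℝ) : ∀ L : List (X.b →ₗ[ℝ] ℝ), 0 < ip X σ L.sum →
    ∃ α ∈ L, 0 < ip X σ α := by
  intro L
  induction L with
  | nil =>
    intro h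
    exfalso
    rw [List.sum_nil, ← ip_eq, map_zero, map_zero] at h
    exact lt_irrefl _ h
  | cons a L ih =>
    intro h
    rw [List.sum_cons, ip_add_right] at h
    by_cases h1 : 0 < ip X σ a
    · exact ⟨a, List.mem_cons_self, h1⟩
    · obtain ⟨α, hα, h2⟩ := ih (by linarith)
      exact ⟨α, List.mem_cons_of_mem _ hα, h2⟩

theorem gns (gwb : GwbStmt) (int : IntStmt) (wtr : WtrStmt) (smr : SmrStmt) : GnsStmt := by
  intro X hS R t hns
  obtain ⟨S⟩ := id hS
  obtain ⟨g1, g2, g3, g4, g5⟩ := gwb X S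
  set σ := R.rt t with hσ
  set U := Submodule.span ℝ {z | ∃ w w', (∀ c : ℝ, R.rt w ≠ c • R.rt w') ∧
      R.rt w + R.rt w' = σ ∧ z = R.e w * R.e w' - R.e w' * R.e w} with hU
  have hen : ∀ l, R.e l ∈ X.n := by
    intro l
    rw [← R.span_e]
    exact Submodule.subset_span ⟨l, rfl⟩
  have hrt : ∀ l, RtV X (R.rt l) (R.e l) := fun l => ⟨⟨hen l, R.wt l⟩, R.lin.ne_zero l⟩
  by_contra hnot
  -- elements of `U` have the weight `σ`
  have hUw : ∀ u ∈ U, WtV X σ u := by
    intro u hu
    refine Submodule.span_induction (p := fun u _ => WtV X σ u) ?_ ?_ ?_ ?_ hu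
    · rintro _ ⟨w, w', _, hs, rfl⟩
      refine ⟨X.lie _ (hen w) _ (hen w'), fun c => ?_⟩
      have e1 := R.wt w c
      have e2 := R.wt w' c
      have e3 : diagonal (c : Fin X.m → ℝ) * (R.e w * R.e w' - R.e w' * R.e w) -
          (R.e w * R.e w' - R.e w' * R.e w) * diagonal (c : Fin X.m → ℝ) =
          (diagonal (c : Fin X.m → ℝ) * R.e w - R.e w * diagonal (c : Fin X.m → ℝ)) * R.e w' +
          R.e w * (diagonal (c : Fin X.m → ℝ) * R.e w' - R.e w' * diagonal (c : Fin X.m → ℝ)) -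
          (diagonal (c : Fin X.m → ℝ) * R.e w' - R.e w' * diagonal (c : Fin X.m → ℝ)) * R.e w -
          R.e w' * (diagonal (c : Fin X.m → ℝ) * R.e w - R.e w * diagonal (c : Fin X.m → ℝ)) := by
        noncomm_ring
      rw [e3, e1, e2, ← hs, LinearMap.add_apply, Matrix.smul_mul, Matrix.mul_smul, Matrix.smul_mul,
        Matrix.mul_smul, add_smul, smul_sub, smul_sub]
      abel
    · refine ⟨X.n.zero_mem, fun c => ?_⟩
      rw [mul_zero, zero_mul, sub_zero, smul_zero]
    · intro a b _ _ ha hb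
      refine ⟨X.n.add_mem ha.1 hb.1, fun c => ?_⟩
      rw [mul_add, add_mul, smul_add, ← ha.2 c, ← hb.2 c]
      abel
    · intro r a _ ha
      refine ⟨X.n.smul_mem r ha.1, fun c => ?_⟩
      rw [Matrix.mul_smul, Matrix.smul_mul, ← smul_sub, ha.2 c, smul_comm]
  obtain ⟨u, hu, horth⟩ := ex_orth U (R.e t)
  set z := R.e t - u with hz
  have hz0 : z ≠ 0 := by
    intro h
    apply hnot
    rw [sub_eq_zero.1 h]
    exact hu
  have hzw : RtV X σ z := by
    refine ⟨⟨X.n.sub_mem (hen t) (hUw u hu).1, fun c => ?_⟩, hz0⟩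
    have e1 := R.wt t c
    have e2 := (hUw u hu).2 c
    rw [mul_sub, sub_mul, smul_sub, ← e1, ← e2]
    abel
  obtain ⟨hzg, hσpos⟩ := g1 σ z hzw
  have hσ0 : σ ≠ 0 := by
    intro h
    rw [h, LinearMap.zero_apply] at hσpos
    exact lt_irrefl _ hσpos
  obtain ⟨L, hL, hLs⟩ := smr X hS ⟨R⟩ σ ⟨z, hzw⟩
  obtain ⟨α, hα, hpos⟩ := ex_pos σ L (by rw [hLs]; exact ip_self_pos hσ0)
  have hsα : Smp X α := hL α hα
  obtain ⟨w, hw⟩ := (wtr X R α).2.1 hsα.1
  obtain ⟨hxg, hαpos⟩ := g1 α (R.e w) (hw ▸ hrt w)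
  have hα0 : α ≠ 0 := by
    intro h
    rw [h, LinearMap.zero_apply] at hαpos
    exact lt_irrefl _ hαpos
  have hneg : (-α : X.b →ₗ[ℝ] ℝ) ≠ 0 := neg_ne_zero.2 hα0
  have hy0 : (R.e w)ᵀ * z - z * (R.e w)ᵀ ≠ 0 := by
    refine (int X S (-α) σ (R.e w)ᵀ z (g3 _ _ hxg) hneg hzg).2.1 ?_
    rw [ip_neg_right]
    linarith
  have hyg := g4 (-α) σ _ z (g3 _ _ hxg) hzg hy0
  have hval : (-α + σ) S.a₀ ≠ 0 := by
    intro h
    have h2 := g5 _ _ hyg h
    apply hns α hsα 1
    rw [one_smul]
    have h3 : σ = (-α + σ) + α := by abel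
    rw [h3, h2, zero_add]
  rcases lt_or_gt_of_ne hval with h | h
  · have h1 := g3 _ _ hyg
    have h2 := g2 _ _ h1 (by rw [LinearMap.neg_apply]; linarith)
    refine hsα.2 σ (-(-α + σ)) ⟨z, hzw⟩ ⟨_, h2⟩ ?_
    abel
  · have h1 := g2 _ _ hyg h
    set y := (R.e w)ᵀ * z - z * (R.e w)ᵀ with hy
    have h2 := (wtr X R (-α + σ)).1 y h1.1
    have h3 : R.e w * y - y * R.e w ∈ U := by
      refine Submodule.span_induction (p := fun y _ => R.e w * y - y * R.e w ∈ U) ?_ ?_ ?_ ?_ h2
      · rintro _ ⟨w', hw', rfl⟩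
        refine Submodule.subset_span ⟨w, w', ?_, ?_, rfl⟩
        · intro c hc
          have hw'' : R.rt w' = -α + σ := hw'
          rw [hw, hw''] at hc
          have hc0 : c ≠ 0 := by
            intro h0
            rw [h0, zero_smul] at hc
            exact hα0 hc
          apply hns α hsα ((1 + c) / c)
          have h4 : (1 + c) • α = c • σ := by
            have h5 : α + c • α = c • σ := by
              nth_rewrite 1 [hc]
              rw [smul_add, smul_neg]
              abel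
            rw [add_smul, one_smul]
            exact h5
          rw [div_eq_inv_mul, mul_smul, h4, smul_smul, inv_mul_cancel₀ hc0, one_smul]
        · have hw'' : R.rt w' = -α + σ := hw'
          rw [hw, hw'']
          abel
      · rw [mul_zero, zero_mul, sub_zero]
        exact U.zero_mem
      · intro a b _ _ ha hb
        have h4 : R.e w * (a + b) - (a + b) * R.e w =
            (R.e w * a - a * R.e w) + (R.e w * b - b * R.e w) := by noncomm_ring
        rw [h4]
        exact U.add_mem ha hb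
      · intro r a _ ha
        have h4 : R.e w * (r • a) - (r • a) * R.e w = r • (R.e w * a - a * R.e w) := by
          rw [Matrix.mul_smul, Matrix.smul_mul, ← smul_sub]
        rw [h4]
        exact U.smul_mem r ha
    have h4 := horth _ h3
    rw [← trB_key (R.e w) y z] at h4
    exact hy0 (trB_self _ h4)

end Pool.Agent.QSB.H96
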